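import Pool.Agent.V11291.GS.Edge2
import Pool.Agent.H921R2.TatePole.Dedekind

/-!
# The pole of `L_2(s, X)` at `s = 2` and Gaussian sums of the Frobenius traces

Let `X` be a projective variety of dimension `d ≥ 1` over a number field `k`, let `S` be a set of primes of `k` (in
the main case the primes of good reduction; the other Euler factors have no zeros and no poles at `s = 2`), let
`α_{v,1}, …, α_{v,N}` be the eigenvalues of the geometric Frobenius on `H^2(X)` for `v ∈ S`, let
`t(v) = ∑_j α_{v,j}` be its trace, and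

`L(s) = ∏_{v ∈ S} ∏_j (1 - α_{v,j} q_v^{-s})⁻¹`, `Re s > 2`.

For `η > 0` and `T > 0` put

`G_η(T) = (4πT)^{-1/2} ∑_{v ∈ S} t(v) (log q_v) q_v^{-2+η} exp(-(log q_v)² / (4T))`.

Nothing is assumed on a continuation of `L` to any point outside the half plane of absolute convergence. It is
shown that for every integer `r`, for example `r = rank NS(X/k)`, the following are equivalent:

(i) `L` has a meromorphic continuation to a neighbourhood of `s = 2`, and there a pole of order exactly `r`;

(ii) for all sufficiently small `η > 0` and all `ε > 0`: `G_η(T) = r exp(η² T) + O(exp(ε T))`, `T → ∞`;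

(iii) there are `η > 0` and `0 ≤ θ < η²` such that `G_η(T) = r exp(η² T) + O(exp(θ T))`, `T → ∞`.

So both the existence of the continuation to a neighbourhood of the single point `2` and the order of the pole,
which is the statement of Tate's conjecture, are equivalent to one asymptotic formula with a power saving for a
sum over the Frobenius traces with positive weights. The sums over the primes alone are used (not over the prime
powers). A Tauberian theorem for the mean value of `t(v) log q_v / q_v` would need the whole line `Re s = 2`; the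
Gaussian sum is insensitive to the behaviour of `L` at all points outside a neighbourhood of `2`.

The proof: the Laplace transform of `G_η(T) / T` is the Dirichlet series `∑ t(v) q_v^{-s}` at `s = 2 - η + √w`. For
`Re w > 0` the number `√w` lies in the sector `|Im z| < Re z`. The part of this sector to the left of the line
`Re z = η` lies in the disc `|z - η| < 2η`, so that for small `η` the function `L(2 - η + √w)`
is defined on the whole half plane `Re w > 0`, and its logarithm tends to zero rapidly. The part of the logarithm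
with the higher powers `α^k`, `k ≥ 2`, is holomorphic for `Re s > 3/2`. In the other direction a bound
`O(exp(θ T))` gives the continuation of the Laplace transform to `Re w > θ`, where the domain of the numbers
`2 - η + √w` contains the point `2`, as `θ < η²`.
-/

set_option autoImplicit false

namespace Pool.Agent.Results.MP_1f4fc7_nt.PoleFromGaussianSums

open Filter Topology Set NumberField IsDedekindDomain

variable {K : Type} [Field K] [NumberField K] {n N : ℕ}

/-- The norm `q_v`. -/
noncomputable def nrm (v : HeightOneSpectrum (𝓞 K)) : ℕ := Ideal.absNorm v.asIdeal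

/-- The set `X` of homogeneous polynomials over `𝓞_K` in `n` variables gives a projective variety over
`K`.  For a field `κ` with `q` elements and a homomorphism `𝓞_K → κ` this is `(q - 1)` times the number
of the points of `X` with coordinates in `κ`: the number of the nonzero solutions of the equations. -/
noncomputable def cone (X : Set (MvPolynomial (Fin n) (𝓞 K))) {κ : Type} [Field κ]
    (φ : 𝓞 K →+* κ) : ℕ :=
  Nat.card {u : Fin n → κ // u ≠ 0 ∧ ∀ f ∈ X, MvPolynomial.eval₂ φ u f = 0}

/-- `α_1, …, α_N` are the eigenvalues of the geometric Frobenius at the prime `v` of `K` on `H^i(X)`,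
for a variety `X` of dimension `d`: there are finite multisets `β_k` of complex numbers of absolute
value `q_v^{k/2}`, `k = 0, …, 2d`, with `β_i = {α_1, …, α_N}`, such that for every finite extension
`κ` of the residue field of `v`, of degree `e`, the number of the points of `X` with coordinates in
`κ` is `∑ (-1)^k ∑_{z ∈ β_k} z^e`.  By the theorem of Deligne such `β_k` exist at almost all primes
if `X` is smooth, with `N` the `i`-th Betti number of `X`; for `k ≤ 2d` they are unique. -/
def IsFrobenius (X : Set (MvPolynomial (Fin n) (𝓞 K))) (d i : ℕ)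
    (v : HeightOneSpectrum (𝓞 K)) (α : Fin N → ℂ) : Prop :=
  ∃ β : ℕ → Multiset ℂ, β i = Finset.univ.val.map α ∧
    (∀ k, ∀ z ∈ β k, ‖z‖ = (nrm v : ℝ) ^ ((k : ℝ) / 2)) ∧
    ∀ (κ : Type) [Field κ] [Finite κ] (φ : 𝓞 K →+* κ) (e : ℕ), RingHom.ker φ = v.asIdeal →
      Nat.card κ = nrm v ^ e →
      (cone X φ : ℂ) = ((nrm v : ℂ) ^ e - 1) *
          ∑ k ∈ Finset.range (2 * d + 1), (-1 : ℂ) ^ k * ((β k).map (fun z => z ^ e)).sum

variable {S : Set (HeightOneSpectrum (𝓞 K))}

/-- The Euler factor `∏_j (1 - α_{v,j} q_v^{-s})⁻¹`. -/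
noncomputable def factor (α : S → Fin N → ℂ) (v : S) (s : ℂ) : ℂ :=
  ∏ j, (1 - α v j * (nrm v.1 : ℂ) ^ (-s))⁻¹

/-- The Euler product `L` has a meromorphic continuation `F` to a neighbourhood of `s = 2`, with a pole of
order exactly `r` at `2` (for `r ≤ 0` a zero of order `-r`): `F` is meromorphic at `2`, of order `-r`, and for
`Re s > 2` near `2` the value `F(s)` is the value of the Euler product. -/
def HasPole (α : S → Fin N → ℂ) (r : ℤ) : Prop :=
  ∃ F : ℂ → ℂ, MeromorphicAt F 2 ∧ meromorphicOrderAt F 2 = (-r : ℤ) ∧ ∃ ρ : ℝ, 0 < ρ ∧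
    ∀ s : ℂ, 2 < s.re → ‖s - 2‖ < ρ → HasProd (fun v : S => factor α v s) (F s)

/-- The Gaussian sum
`G_η(T) = (4πT)^{-1/2} ∑_v t(v) (log q_v) q_v^{-2+η} exp(-(log q_v)² / (4T))`, `t(v) = ∑_j α_{v,j}`. -/
noncomputable def gauss (α : S → Fin N → ℂ) (η T : ℝ) : ℂ :=
  ((Real.sqrt (4 * Real.pi * T))⁻¹ : ℝ) * ∑' v : S, (∑ j, α v j) *
    (Real.log (nrm v.1) * (nrm v.1 : ℝ) ^ (-2 + η) *
      Real.exp (-(Real.log (nrm v.1) ^ 2 / (4 * T))) : ℝ)

/-- `G_η(T) = r exp(η² T) + O(exp(θ T))` for `T → ∞`. -/
def GaussLaw (α : S → Fin N → ℂ) (r : ℤ) (η θ : ℝ) : Prop :=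
  ∃ C : ℝ, ∀ᶠ T : ℝ in atTop,
    ‖gauss α η T - r * Real.exp (η ^ 2 * T)‖ ≤ C * Real.exp (θ * T)

open Pool.Agent.V11291.GS
open Pool.Agent.H921R2.TatePole (nm two_le_nm nm_summable)

instance countable_primes : Countable (HeightOneSpectrum (𝓞 K)) := by
  have h1 := (nm_summable (K := K) (x := 2) (by norm_num)).countable_support
  have h2 : Function.support (fun v : HeightOneSpectrum (𝓞 K) => (nm v : ℝ) ^ (-(2 : ℝ))) =
      Set.univ := by
    ext v
    simp only [Function.mem_support, Set.mem_univ, iff_true]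
    have hp2 : (2 : ℝ) ≤ nm v := by exact_mod_cast two_le_nm v
    have : (0 : ℝ) < nm v := by linarith
    positivity
  rwa [h2, Set.countable_univ_iff] at h1

/-- the normalised eigenvalues -/
noncomputable def nev (α : S → Fin N → ℂ) (v : S) (j : Fin N) : ℂ := α v j / (nrm v.1 : ℂ)

theorem nrm_pos (v : HeightOneSpectrum (𝓞 K)) : (0 : ℝ) < nrm v := by
  have := two_le_nm v
  have h : nm v = nrm v := rfl
  rw [h] at this
  exact_mod_cast (by omega : 0 < nrm v)

theorem up {X : Set (MvPolynomial (Fin n) (𝓞 K))} {d : ℕ} {α : S → Fin N → ℂ}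
    (h : ∀ v, IsFrobenius X d 2 v.1 (α v)) : UP (fun v : S => nrm v.1) (nev α) where
  two := fun v => two_le_nm v.1
  sum := fun t ht => (nm_summable (K := K) ht).subtype _
  le := fun v j => by
    obtain ⟨β, h1, h2, h3⟩ := h v
    have h4 : ‖α v j‖ = (nrm v.1 : ℝ) := by
      have := h2 2 (α v j) (by
        rw [h1, Multiset.mem_map]
        exact ⟨j, Finset.mem_univ_val j, rfl⟩)
      rw [this]
      norm_num
    have h5 : ‖((nrm v.1 : ℕ) : ℂ)‖ = (nrm v.1 : ℝ) := by simp
    unfold nev
    rw [norm_div, h4, h5, div_self (nrm_pos v.1).ne']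

theorem factor_eq (α : S → Fin N → ℂ) (v : S) (s : ℂ) :
    factor α v (s + 1) = ∏ i, (1 - nev α v i * (nrm v.1 : ℂ) ^ (-s))⁻¹ := by
  have h0 : (nrm v.1 : ℂ) ≠ 0 := by exact_mod_cast (nrm_pos v.1).ne'
  unfold factor nev
  refine Finset.prod_congr rfl fun j _ => ?_
  congr 2
  rw [show -(s + 1) = -s + -1 by ring, Complex.cpow_add _ _ h0, Complex.cpow_neg_one]
  ring

theorem hasPole_iff (α : S → Fin N → ℂ) (r : ℤ) :
    HasPole α r ↔ Pole (fun v : S => nrm v.1) (nev α) r := by
  constructor
  · rintro ⟨F, h1, h2, ρ, h3, h4⟩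
    have e : (2 : ℂ) = 1 + 1 := by norm_num
    refine ⟨fun s => F (s + 1), ?_, ?_, ρ, h3, fun s hs hsρ => ?_⟩
    · rw [meromorphicOrderAt_fun_comp_add_const_eq_meromorphicOrderAt, ← e]
      exact h2
    · rw [e] at h1
      exact h1.comp_analyticAt (g := fun z => z + 1) (by fun_prop)
    · have h5 := h4 (s + 1) (by simp; linarith) (by
        rw [show s + 1 - 2 = s - 1 by ring]
        exact hsρ)
      simp only [factor_eq] at h5
      exact h5
  · rintro ⟨F, h1, h2, ρ, h3, h4⟩
    have e : (2 : ℂ) - 1 = 1 := by norm_num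
    refine ⟨fun s => F (s - 1), ?_, ?_, ρ, h3, fun s hs hsρ => ?_⟩
    · refine MeromorphicAt.comp_analyticAt (g := fun z : ℂ => z - 1) ?_ (by fun_prop)
      rw [e]
      exact h2
    · rw [meromorphicOrderAt_fun_comp_sub_const_eq_meromorphicOrderAt, e]
      exact h1
    · have h5 := h4 (s - 1) (by simp; linarith) (by
        rw [show s - 1 - 1 = s - 2 by ring]
        exact hsρ)
      simp only [← factor_eq, sub_add_cancel] at h5
      exact h5

theorem gauss_eq (α : S → Fin N → ℂ) (η T : ℝ) :
    gauss α η T = G (lx fun v : S => nrm v.1) (lc (fun v : S => nrm v.1) (nev α) η) T := by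
  unfold gauss G
  rw [← tsum_mul_left]
  refine tsum_congr fun v => ?_
  have hq := nrm_pos v.1
  have h0 : (nrm v.1 : ℂ) ≠ 0 := by exact_mod_cast hq.ne'
  have h1 : (nrm v.1 : ℝ) ^ (-1 + η) = (nrm v.1 : ℝ) ^ (-2 + η) * nrm v.1 := by
    rw [show (-1 + η : ℝ) = -2 + η + 1 by ring, Real.rpow_add_one hq.ne']
  unfold lc lx kr nev
  rw [← Finset.sum_div, h1]
  push_cast
  field_simp

theorem law_iff' (α : S → Fin N → ℂ) (r : ℤ) (η θ : ℝ) :
    GaussLaw α r η θ ↔ Law (fun v : S => nrm v.1) (nev α) r η θ := by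
  unfold GaussLaw Law
  simp only [gauss_eq]

/-- **Theorem.** Let `α_{v,j}` be the eigenvalues of Frobenius on `H^2(X)`, `v ∈ S`. The Euler product `L`
converges for `Re s > 2` and its values are not zero. For every integer `r` the following are equivalent: (i) `L`
has a meromorphic continuation to a neighbourhood of `2` with a pole of order exactly `r` at `2`; (ii) there is
`η₀ > 0` with `G_η(T) = r exp(η² T) + O(exp(ε T))` for all `0 < η < η₀` and `ε > 0`; (iii) there are `η > 0` and
`0 ≤ θ < η²` with `G_η(T) = r exp(η² T) + O(exp(θ T))`. -/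
theorem result (X : Set (MvPolynomial (Fin n) (𝓞 K))) (d : ℕ)
    (α : S → Fin N → ℂ) (h : ∀ v, IsFrobenius X d 2 v.1 (α v)) :
    (∀ s : ℂ, 2 < s.re → ∃ y : ℂ, y ≠ 0 ∧ HasProd (fun v : S => factor α v s) y) ∧
    ∀ r : ℤ, List.TFAE [
      HasPole α r,
      ∃ η₀ : ℝ, 0 < η₀ ∧ ∀ η : ℝ, 0 < η → η < η₀ → ∀ ε : ℝ, 0 < ε → GaussLaw α r η ε,
      ∃ η θ : ℝ, 0 < η ∧ 0 ≤ θ ∧ θ < η ^ 2 ∧ GaussLaw α r η θ] := by
  have E := up h
  refine ⟨fun s hs => ?_, fun r => ?_⟩
  · have h1 := E.hasProd (η := 0) le_rfl (s := s - 1) (by simp; linarith)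
    simp only [← factor_eq, sub_add_cancel] at h1
    exact ⟨_, mul_ne_zero (Complex.exp_ne_zero _) (Complex.exp_ne_zero _), h1⟩
  · rw [hasPole_iff]
    simp only [law_iff']
    exact E.tfae r

end Pool.Agent.Results.MP_1f4fc7_nt.PoleFromGaussianSums
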