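import Pool.Agent.V11288.HS.EdgeX3

/-!
# The pole of `L_2(s, X)` at `s = 2` and the partial Euler products

Let `X` be a projective variety of dimension `d ≥ 1` over a number field `k`, let `S` be a set of primes of `k` (in
the main case the primes of good reduction; the other Euler factors have no zeros and no poles at `s = 2`), let
`α_{v,1}, …, α_{v,N}` be the eigenvalues of Frobenius on `H^2(X)` for `v ∈ S`, and

`L(s) = ∏_{v ∈ S} ∏_j (1 - α_{v,j} q_v^{-s})⁻¹`, `Re s > 2`,

`P(Y) = exp ∑_{q_v^j ≤ Y} t_j(v) / (j q_v^{2j})`, `t_j(v) = ∑_i α_{v,i}^j`,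

the partial Euler product at the point `2` over all finite fields with at most `Y` elements. Let `L` have a
continuation of polynomial growth to `Re s > 2 - η` for some `η > 0`, with at most a pole at `2`; nothing is
supposed on its zeros. It is shown that for every integer `r`, for example `r = rank NS(X/k)`, the following
are equivalent:

(i) `L` has a pole of order exactly `r` at `s = 2`;

(ii) `∫_1^∞ (log P(Y) - r (log log Y + γ) - log A)² dY/Y < ∞` for some `A > 0`;

(iii) there is `A > 0` such that `P(Y) ~ A (e^γ log Y)^r` outside a set of finite logarithmic measure: for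
every `ε > 0` the set of all `Y > 1` with `|log P(Y) - r (log log Y + γ) - log A| ≥ ε` has finite logarithmic
measure;

(iv) for some `B` the inequality `|log P(Y) - r log log Y| ≤ B` holds on a set of infinite logarithmic measure.

In this case `A` in (ii) is the leading coefficient `lim (s - 2)^r L(s)` and

`∫_1^∞ (log P(Y) - r (log log Y + γ) - log A)² dY/Y =
   (1/π) ∫_{-∞}^∞ (log |L(2 + it)| + r log |t| - log A)² dt/t²`.

So the exact order of magnitude `(log Y)^r` of the partial Euler products on a set of infinite logarithmic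
measure decides about the order of the pole.
-/

set_option autoImplicit false

namespace Pool.Agent.Results.MP_1f4fc7_nt.ProductsAtTheEdge

open Filter Topology Set NumberField IsDedekindDomain MeasureTheory

variable {K : Type} [Field K] [NumberField K] {n N : ℕ}

/-- The norm `q_v`. -/
noncomputable def nrm (v : HeightOneSpectrum (𝓞 K)) : ℕ := Ideal.absNorm v.asIdeal

/-- The set `X` of homogeneous polynomials over `𝓞_K` in `n` variables gives a projective variety over
`K`.  For a field `κ` with `q` elements and a homomorphism `𝓞_K → κ` this is `(q - 1)` times the number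
of the points of `X` with coordinates in `κ`: the number of the nonzero solutions of the equations. -/
noncomputable def cone (X : Set (MvPolynomial (Fin n) (𝓞 K))) {κ : Type} [Field κ]
    (φ : 𝓞 K →+* κ) : ℕ :=
  Nat.card {u : Fin n → κ // u ≠ 0 ∧ ∀ f ∈ X, MvPolynomial.eval₂ φ u f = 0}

/-- `α_1, …, α_N` are the eigenvalues of the geometric Frobenius at the prime `v` of `K` on `H^i(X)`,
for a variety `X` of dimension `d`: there are finite multisets `β_k` of complex numbers of absolute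
value `q_v^{k/2}`, `k = 0, …, 2d`, with `β_i = {α_1, …, α_N}`, such that for every finite extension
`κ` of the residue field of `v`, of degree `e`, the number of the points of `X` with coordinates in
`κ` is `∑ (-1)^k ∑_{z ∈ β_k} z^e`.  By the theorem of Deligne such `β_k` exist at almost all primes
if `X` is smooth, with `N` the `i`-th Betti number of `X`; for `k ≤ 2d` they are unique. -/
def IsFrobenius (X : Set (MvPolynomial (Fin n) (𝓞 K))) (d i : ℕ)
    (v : HeightOneSpectrum (𝓞 K)) (α : Fin N → ℂ) : Prop :=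
  ∃ β : ℕ → Multiset ℂ, β i = Finset.univ.val.map α ∧
    (∀ k, ∀ z ∈ β k, ‖z‖ = (nrm v : ℝ) ^ ((k : ℝ) / 2)) ∧
    ∀ (κ : Type) [Field κ] [Finite κ] (φ : 𝓞 K →+* κ) (e : ℕ), RingHom.ker φ = v.asIdeal →
      Nat.card κ = nrm v ^ e →
      (cone X φ : ℂ) = ((nrm v : ℂ) ^ e - 1) *
          ∑ k ∈ Finset.range (2 * d + 1), (-1 : ℂ) ^ k * ((β k).map (fun z => z ^ e)).sum

variable {S : Set (HeightOneSpectrum (𝓞 K))}

/-- The Euler factor `∏_j (1 - α_{v,j} q_v^{-s})⁻¹`. -/
noncomputable def factor (α : S → Fin N → ℂ) (v : S) (s : ℂ) : ℂ :=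
  ∏ j, (1 - α v j * (nrm v.1 : ℂ) ^ (-s))⁻¹

/-- `log P(Y)`: the sum of `t_k(v) / (k q_v^{2k})` over all primes `v ∈ S` and `k ≥ 1` (here
`k = p.2 + 1`) with `q_v^k ≤ Y`; `t_k(v) = ∑_j α_{v,j}^k` is a real number. -/
noncomputable def logP (α : S → Fin N → ℂ) (Y : ℝ) : ℝ :=
  ∑ᶠ (p : S × ℕ) (_ : (nrm p.1.1 : ℝ) ^ (p.2 + 1) ≤ Y),
    (∑ j, α p.1 j ^ (p.2 + 1)).re / (((p.2 : ℝ) + 1) * ((nrm p.1.1 : ℝ) ^ 2) ^ (p.2 + 1))

/-- The mean square deviation `∫_1^∞ (log P(Y) - r (γ + log log Y) - log A)² dY/Y ∈ [0, ∞]`. -/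
noncomputable def meanSquare (α : S → Fin N → ℂ) (r A : ℝ) : ENNReal :=
  ∫⁻ Y in Ioi (1 : ℝ), ENNReal.ofReal
    ((logP α Y - r * (Real.eulerMascheroniConstant + Real.log (Real.log Y)) - Real.log A) ^ 2 / Y)

/-- `(1/π) ∫_{-∞}^∞ (log |L(2 + it)| + r log |t| - log A)² dt/t² ∈ [0, ∞]`. -/
noncomputable def edgeIntegral (L : ℂ → ℂ) (r A : ℝ) : ENNReal :=
  ENNReal.ofReal Real.pi⁻¹ * ∫⁻ t : ℝ, ENNReal.ofReal
    ((Real.log ‖L (2 + t * Complex.I)‖ + r * Real.log |t| - Real.log A) ^ 2 / t ^ 2)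

/-- `L` is a continuation of the Euler product slightly beyond the line `Re s = 2`: `L(s)` is the Euler product
for `Re s > 2`, and there are `η > 0`, `k` and a holomorphic function `G` of polynomial growth on
`Re s > 2 - η` with `G(s) = (s - 2)^k L(s)` for `s ≠ 2`. -/
def Continuation (α : S → Fin N → ℂ) (L : ℂ → ℂ) : Prop :=
  (∀ s : ℂ, 2 < s.re → HasProd (fun v : S => factor α v s) (L s)) ∧
  ∃ (η C : ℝ) (k κ : ℕ) (G : ℂ → ℂ), 0 < η ∧ ∀ s : ℂ, 2 - η < s.re →
    DifferentiableAt ℂ G s ∧ ‖G s‖ ≤ C * (1 + ‖s‖) ^ κ ∧ (s ≠ 2 → G s = (s - 2) ^ k * L s)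

/-- The logarithmic measure `∫_U dY/Y` of a set `U` of positive real numbers. -/
noncomputable def logMeasure (U : Set ℝ) : ENNReal := ∫⁻ Y in U, ENNReal.ofReal (1 / Y)

open Pool.Agent.V11288

theorem edge_eq : HS.EX.edge 2 = 2 := by
  unfold HS.EX.edge
  norm_num

theorem edge_eqc : ((HS.EX.edge 2 : ℝ) : ℂ) = 2 := by
  rw [edge_eq]
  norm_num

theorem logP_eq (α : S → Fin N → ℂ) (Y : ℝ) : logP α Y = HS.EX.logP 2 α Y := by
  unfold logP HS.EX.logP
  rw [edge_eq]
  refine finsum_congr fun p => finsum_congr fun _ => ?_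
  have e : (nrm p.1.1 : ℝ) ^ 2 = (HS.EX.nrm p.1.1 : ℝ) ^ (2 : ℝ) := by
    rw [← Real.rpow_natCast]
    norm_num
    rfl
  rw [e]

theorem meanSquare_eq (α : S → Fin N → ℂ) (r A : ℝ) :
    meanSquare α r A = HS.EX.meanSquare 2 α r A := by
  unfold meanSquare HS.EX.meanSquare
  simp only [logP_eq]

theorem continuation_iff (α : S → Fin N → ℂ) (L : ℂ → ℂ) :
    Continuation α L ↔ HS.EX.Continuation 2 α L := by
  unfold Continuation HS.EX.Continuation
  rw [edge_eqc, edge_eq]
  exact Iff.rfl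

/-- **The pole at `s = 2` and the partial Euler products.** -/
theorem result (X : Set (MvPolynomial (Fin n) (𝓞 K))) (d : ℕ) (hd : 1 ≤ d)
    (α : S → Fin N → ℂ) (h : ∀ v, IsFrobenius X d 2 v.1 (α v)) (L : ℂ → ℂ)
    (hL : Continuation α L) :
    (∀ r : ℤ, List.TFAE [
      meromorphicOrderAt L 2 = (-r : ℤ),
      ∃ A : ℝ, 0 < A ∧ meanSquare α r A < ⊤,
      ∃ A : ℝ, 0 < A ∧ ∀ ε : ℝ, 0 < ε → logMeasure {Y : ℝ | 1 < Y ∧ ε ≤ |logP α Y -
        r * (Real.eulerMascheroniConstant + Real.log (Real.log Y)) - Real.log A|} < ⊤,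
      ∃ B : ℝ, logMeasure {Y : ℝ | 1 < Y ∧ |logP α Y - r * Real.log (Real.log Y)| ≤ B} = ⊤]) ∧
    ∀ (r : ℤ) (A : ℝ), 0 < A →
      (meanSquare α r A < ⊤ ↔
        Tendsto (fun s : ℂ => (s - 2) ^ r * L s) (𝓝[≠] 2) (𝓝 (A : ℂ))) ∧
      (meanSquare α r A < ⊤ → meanSquare α r A = edgeIntegral L r A) := by
  have hP : HS.EX.Pure 2 α := HS.EX.pure_of_frobenius (by omega) h
  have hL' := (continuation_iff α L).1 hL
  refine ⟨fun r => ?_, fun r A hA => ?_⟩
  · have h1 := HS.EX.order_tfae hP hL' r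
    rw [edge_eqc] at h1
    simp only [meanSquare_eq, logP_eq]
    exact h1
  · obtain ⟨h3, h4⟩ := HS.EX.main' hP hL' (r : ℝ) hA
    rw [edge_eqc] at h3 h4
    rw [meanSquare_eq]
    refine ⟨h3.trans ?_, h4⟩
    constructor
    · rintro ⟨k, hk, hlim⟩
      have : r = k := by exact_mod_cast hk
      rw [this]
      exact hlim
    · intro hlim
      exact ⟨r, rfl, hlim⟩

end Pool.Agent.Results.MP_1f4fc7_nt.ProductsAtTheEdge
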