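import Pool.Agent.W353.TD.Main

/-!
# Tate's conjecture on the pole over all subfields of a closure with symmetric Galois group

`X` is a smooth projective variety over a number field `K` and `V = A^m(X) ⊗ ℚ` the space of the classes
of the algebraic cycles of codimension `m` defined over the algebraic closure; for `m = 1`, the question,
it is `NS(X) ⊗ ℚ`.  For every number field `M ⊇ K` the rank of the group of the classes of the cycles
defined over `M` is `dim V^{Gal(K̄/M)}`.  Tate's conjecture for `X_M` says that the order at `s = m + 1` of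
`L(H^{2m}(X_M), s)` is the negative of this rank.  The theorem computes the orders over all fields
between `K` and the Galois closure of a field `F ⊇ K` of large degree with symmetric Galois group.
The definitions are in `Pool.Agent.W353.TD.Defs` and `Pool.Agent.W353.EF.Defs`.
-/

set_option autoImplicit false

namespace Pool.Agent.Results.MP_1f4fc7_nt.SymmetricClosure

open NumberField IsDedekindDomain Filter Topology Polynomial
open Pool.Agent.W353.EF (IsEulerSystem LFun size HasOrder OrderOver perm closure youngField quadField)
open Pool.Agent.W353.TD (IsPart rank Defect)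

section
variable {K : Type} [Field K] [NumberField K] {n : ℕ}

/-- A meromorphic continuation of order `k` gives the limit of the quotient of logarithms. -/
theorem tendsto_size (X : Set (MvPolynomial (Fin n) (𝓞 K))) {d i N : ℕ} (hi : i ≤ 2 * d) {F : Type}
    [Field F] [NumberField F] [Algebra K F] {B : HeightOneSpectrum (𝓞 F) → ℂ[X]}
    (hB : IsEulerSystem X d i N B) {k : ℤ} (hk : HasOrder i B k) :
    Tendsto (size i B) (𝓝[>] 0) (𝓝 (-(k : ℝ))) := by
  have h0 := (Pool.Agent.W353.PV.size_X0 hi B hB.1 hB.2 (fun _ => 1)).1
  obtain ⟨Λ, h1, h2, h3⟩ := hk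
  exact Pool.Agent.W353.PV.lim_ord h0 h1 (h2.mono fun s hs hs' => hs (by
    have e : ((i : ℂ) / 2 + 1).re = (i : ℝ) / 2 + 1 := by
      simp
    rw [← e]
    exact hs')) h3

end

section
variable {K : Type} [Field K] [NumberField K] {n : ℕ} (X : Set (MvPolynomial (Fin n) (𝓞 K)))
  (d m N : ℕ) {V : Type} [AddCommGroup V] [Module ℚ V]
  (ρ : Representation ℚ Gal(AlgebraicClosure K/K) V)

/-- `L(H^{2m}(X_M), s)` has a meromorphic continuation to a neighbourhood of `m + 1`, or at least the
quotient `log |L(H^{2m}(X_M), m + 1 + ε)| / log(1/ε)` tends to an integer as `ε → 0+`. -/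
def Regular (M : IntermediateField K (AlgebraicClosure K)) : Prop :=
  (∃ k : ℤ, OrderOver X d (2 * m) N M k) ∨ ∃ δ : ℤ, Defect X d m N ρ M δ

/-- The pole of `L(H^{2m}(X_M), s)` at `s = m + 1` has the order `rank - c` in the following sense:
`L(m + 1 + ε)` is different from zero for small `ε > 0`, the quotient
`log |L(m + 1 + ε)| / log(1/ε)` tends to `rank - c`, and every meromorphic continuation to a
neighbourhood of `m + 1` has the order `c - rank` at `m + 1`.  This is for all choices of the Euler
factors at finitely many primes allowed in `IsEulerSystem`. -/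
def PoleOrder (M : IntermediateField K (AlgebraicClosure K)) (c : ℤ) : Prop :=
  ∀ [NumberField M] (B : HeightOneSpectrum (𝓞 M) → ℂ[X]), IsEulerSystem X d (2 * m) N B →
    (∀ᶠ ε : ℝ in 𝓝[>] 0, LFun B (((2 * m : ℕ) : ℂ) / 2 + 1 + ε) ≠ 0) ∧
    Tendsto (size (2 * m) B) (𝓝[>] 0) (𝓝 ((rank ρ M : ℝ) - c)) ∧
    ∀ k : ℤ, HasOrder (2 * m) B k → k = c - rank ρ M

end

open Classical in
/-- **Tate's conjecture over the subfields of a symmetric closure.**  For every `s` there is `n₀` with the
following property.  Let `X` be a projective variety of dimension `d` over a number field `K`,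
`0 ≤ m ≤ d` (`m = 1` for the Néron–Severi group), `N` the `2m`-th Betti number, `V` a part of
`H^{2m}(X)(m)`, for instance `V = A^m(X) ⊗ ℚ`, with `N - dim V = s`.  Let `F/K` be an extension of degree
at least `n₀` with symmetric Galois group, `L` its closure and `Q = K(√disc F)`.  Suppose that for the
Young subfields `M` of `L` the function `L(H^{2m}(X_M), s)` has a meromorphic continuation to a
neighbourhood of `m + 1`, or at least the quotient `log |L(H^{2m}(X_M), m + 1 + ε)| / log(1/ε)` tends to
an integer.  Then there are two integers `a`, `b` with `|a| + |b| ≤ s` such that for all fields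
`M` between `K` and `L` (including those over which there is no continuation) this quotient
tends to `rank - a` if `Q ⊄ M` and to `rank - a - b` if `Q ⊆ M`, and every meromorphic continuation has
order `a - rank`, respectively `a + b - rank`.

In particular, if the pole has the order predicted by Tate over `K` and over the quadratic extension
`Q`, then it has this order over all fields between `K` and `L`. -/
theorem result (s : ℕ) : ∃ n₀ : ℕ, ∀ (K : Type) [Field K] [NumberField K] (n d m N : ℕ)
    (X : Set (MvPolynomial (Fin n) (𝓞 K))) (V : Type) [AddCommGroup V] [Module ℚ V]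
    [FiniteDimensional ℚ V] (ρ : Representation ℚ Gal(AlgebraicClosure K/K) V), m ≤ d →
    N - Module.finrank ℚ V = s → IsPart X d m N ρ →
    ∀ (F : Type) [Field F] [NumberField F] [Algebra K F], Function.Surjective (perm K F) →
    n₀ ≤ Module.finrank K F → (∀ r, Regular X d m N ρ (youngField K F r)) →
    ∃ a b : ℤ, |a| + |b| ≤ s ∧ ∀ M : IntermediateField K (AlgebraicClosure K), M ≤ closure K F →
      PoleOrder X d m N ρ M (a + if quadField K F ≤ M then b else 0) := by
  obtain ⟨n₀, h⟩ := Pool.Agent.W353.TD.all s
  refine ⟨n₀, fun K _ _ n d m N X V _ _ _ ρ hm hs hV F _ _ _ hF hn hk => ?_⟩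
  have hi : 2 * m ≤ 2 * d := by omega
  have hk' : ∀ r, ∃ δ : ℤ, Defect X d m N ρ (youngField K F r) δ := by
    intro r
    rcases hk r with ⟨k, hnf, B, hB, ho⟩ | h'
    · refine ⟨k + rank ρ (youngField K F r), hnf, B, hB, ?_⟩
      have h1 := tendsto_size X hi hB ho
      convert h1 using 2
      push_cast
      ring
    · exact h'
  choose δ hδ using hk'
  obtain ⟨h1, h2⟩ := (h K n d m N X V ρ hm hs hV).2.2.2 F hF hn _ hδ
  refine ⟨δ ⊤, δ ⊥ - δ ⊤, ?_, fun M hM _ B hB => ?_⟩
  · rw [hs] at h2
    exact h2
  · obtain ⟨h3, h4⟩ := h1 M hM B hB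
    have e : (δ ⊤ + if quadField K F ≤ M then (δ ⊥ - δ ⊤) else 0 : ℤ) =
        Pool.Agent.W353.TD.expectedDefect F δ M := by
      unfold Pool.Agent.W353.TD.expectedDefect
      by_cases hQ : quadField K F ≤ M
      · rw [if_pos hQ, if_pos hQ]
        ring
      · rw [if_neg hQ, if_neg hQ, add_zero]
    refine ⟨h3, ?_, fun k' hk' => ?_⟩
    · rw [e]
      exact h4
    · rw [e]
      have h5 := tendsto_size X hi hB hk'
      have h6 := tendsto_nhds_unique h5 h4
      have h7 : ((-k' : ℤ) : ℝ) = (((rank ρ M : ℕ) : ℤ) -
          Pool.Agent.W353.TD.expectedDefect F δ M : ℤ) := by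
        push_cast
        exact h6
      have h8 : -k' = ((rank ρ M : ℕ) : ℤ) - Pool.Agent.W353.TD.expectedDefect F δ M := by
        exact_mod_cast h7
      omega

end Pool.Agent.Results.MP_1f4fc7_nt.SymmetricClosure
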