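import Pool.Agent.V69.TP.Trans

/-!
# Tate's conjecture on the pole and the tensor powers of the transcendental part

`X` is a smooth projective variety over a number field `K`, of dimension `d`, `0 ≤ m ≤ d`, `N` the `2m`-th
Betti number and `V` the space of the classes of the algebraic cycles of codimension `m` defined over the
algebraic closure (for `m = 1`, the question, `V = NS(X) ⊗ ℚ`), or another part of `H^{2m}(X)(m)`.  The
transcendental part `T` is the complement of `V(-m)` in `H^{2m}(X)`, of dimension `s = N - dim V`; its tensor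
power `T^{⊗ r}` is a part of `H^{2rm}(X^r)`, and the edge of `L(T^{⊗ r} ⊗ χ, s)` is the point `r m + 1`.
For an Artin representation `χ` of `K`, of dimension `n`, the defect `δ` of `χ` is the difference between
`dim (V ⊗ χ)^{Gal(K̄/K)}`, the order of the pole of `L(H^{2m}(X) ⊗ χ, s)` at `m + 1` predicted by Tate, and the
actual order (`TwistDefect`); for `m = 1`, `χ = 1` the prediction is `rank NS(X/K)`, and the question is
whether `δ = 0`.  The definitions are in `Pool.Agent.Y139.SM.Defs`, `Pool.Agent.W353.AT.TDefs`,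
`Pool.Agent.W353.AT.Defs`, `Pool.Agent.W353.TD.Defs`, `Pool.Agent.W353.EH.Defs` and
`Pool.Agent.W353.EF.Defs`: `IsTensorSystem`: the Euler factors of `L(T^{⊗ r} ⊗ χ, s)`;
`TensorPole X d m N ρ r χ k`: `log |L(T^{⊗ r} ⊗ χ, r m + 1 + ε)| / log(1/ε)` tends to `k`.
-/

set_option autoImplicit false

namespace Pool.Agent.Results.MP_1f4fc7_nt.TranscendentalPowers

open NumberField IsDedekindDomain Filter Topology Polynomial
open Pool.Agent.W353.EH (size)
open Pool.Agent.W353.AT (IsArtin IsTwistedSystem twistRank TwistDefect)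
open Pool.Agent.W353.TD (IsPart)
open Pool.Agent.Y139.SM (IsTensorSystem TensorPole)

section
variable {K : Type} [Field K] [NumberField K] {l : ℕ} (X : Set (MvPolynomial (Fin l) (𝓞 K)))
  (d m N : ℕ) {V : Type} [AddCommGroup V] [Module ℚ V] [FiniteDimensional ℚ V]
  (ρ : Representation ℚ Gal(AlgebraicClosure K/K) V)

/-- The dimension of the transcendental part. -/
noncomputable def transDim (N : ℕ) (V : Type) [AddCommGroup V] [Module ℚ V] : ℕ :=
  N - Module.finrank ℚ V

/-- Duality (no continuation is assumed).  Every bound `b` for the values on `[-s, s]` of `n (t + ∑ c_r t^r)` is a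
bound for the excess of `L(H^{2m}(X) ⊗ χ, s)` at `m + 1` plus the sum of the `c_r x_r`, `x_r` the value of
`log |L(T^{⊗ r} ⊗ χ, r m + 1 + ε)| / log(1/ε)`. -/
def Duality {n : ℕ} (χ : Representation ℂ Gal(AlgebraicClosure K/K) (Fin n → ℂ)) : Prop :=
  ∀ (B : HeightOneSpectrum (𝓞 K) → ℂ[X]) (S : Finset ℕ) (c : ℕ → ℝ)
    (B' : ℕ → HeightOneSpectrum (𝓞 K) → ℂ[X]), IsTwistedSystem X d (2 * m) N χ 0 B →
    (∀ r ∈ S, 1 ≤ r ∧ IsTensorSystem X d m N ρ r χ (B' r)) → ∀ b : ℝ, 0 ≤ b →
    (∀ t : ℝ, |t| ≤ transDim N V → n * |t + ∑ r ∈ S, c r * t ^ r| ≤ b) → ∀ η : ℝ, 0 < η →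
    ∀ᶠ ε : ℝ in 𝓝[>] 0, |(size (2 * m) 0 B ε - twistRank ρ χ) +
      ∑ r ∈ S, c r * size (2 * (r * m)) 0 (B' r) ε| ≤ b + η

/-- A defect `δ ≠ 0` of `χ` propagates: for every even `q ≥ 2` there are infinitely many `j ≥ 1` such that
`log |L| / log(1/ε)` does not tend to `0` at the edge of `L(T^{⊗ (1 + q j)} ⊗ χ, s)`; in particular this
function has a zero or a pole there, or no continuation. -/
def Propagates {n : ℕ} (χ : Representation ℂ Gal(AlgebraicClosure K/K) (Fin n → ℂ)) : Prop :=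
  ∀ δ : ℤ, TwistDefect X d m N ρ χ δ → δ ≠ 0 → ∀ q : ℕ, Even q → 1 ≤ q →
    {j : ℕ | 1 ≤ j ∧ ¬ TensorPole X d m N ρ (1 + q * j) χ 0}.Infinite

/-- The defect of `χ` is `0` if the functions `L(T^{⊗ r} ⊗ χ, s)` behave like functions of order `0` at their
edges for finitely many odd `r`: for `r = 1 + q j`, `1 ≤ j ≤ M`, where `q` is even and `(n s) ^ q < q M + 1`, or
for `r = 3, 5, …, R`, where `n s < R`. -/
def FinitelyManyPowers {n : ℕ} (χ : Representation ℂ Gal(AlgebraicClosure K/K) (Fin n → ℂ)) : Prop :=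
  ∀ δ : ℤ, TwistDefect X d m N ρ χ δ →
    (∀ q M : ℕ, Even q → 1 ≤ q → (n * transDim N V) ^ q < q * M + 1 →
      (∀ j, 1 ≤ j → j ≤ M → TensorPole X d m N ρ (1 + q * j) χ 0) → δ = 0) ∧
    ∀ R : ℕ, Odd R → n * transDim N V < R →
      (∀ r, Odd r → 3 ≤ r → r ≤ R → TensorPole X d m N ρ r χ 0) → δ = 0

/-- The moment inequalities for `1, -δ, y_2, …, y_R`, `δ` the defect of the trivial representation and `y_r` the
limit of `log |L(T^{⊗ r}, r m + 1 + ε)| / log(1/ε)` (the order of the pole): `∑ P_r y_r ≥ 0` for all real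
polynomials `P = ∑ P_r t^r` of degree at most `R` that are nonnegative on `[-s, s]`. -/
def MomentInequalities : Prop :=
  ∀ (R : ℕ) (y : ℕ → ℝ) (δ : ℤ),
    TwistDefect X d m N ρ (1 : Representation ℂ Gal(AlgebraicClosure K/K) (Fin 1 → ℂ)) δ →
    (∀ r, 2 ≤ r → r ≤ R → ∃ B : HeightOneSpectrum (𝓞 K) → ℂ[X], IsTensorSystem X d m N ρ r
      (1 : Representation ℂ Gal(AlgebraicClosure K/K) (Fin 1 → ℂ)) B ∧
        Tendsto (size (2 * (r * m)) 0 B) (𝓝[>] 0) (𝓝 (y r))) →
    ∀ P : ℝ[X], P.natDegree ≤ R → (∀ t : ℝ, |t| ≤ transDim N V → 0 ≤ P.eval t) →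
      0 ≤ P.coeff 0 - P.coeff 1 * δ + ∑ r ∈ Finset.Icc 2 R, P.coeff r * y r

end

/-- **Tate's conjecture on the pole and the tensor powers of the transcendental part.**  For every Artin
representation `χ` of `K` the duality holds, a nonzero defect propagates to infinitely many tensor powers, and
the defect vanishes if finitely many odd tensor powers behave as expected; for `χ = 1` the defect and the orders
for the tensor powers satisfy the moment inequalities.  For `m = 1`, `V = NS(X) ⊗ ℚ` and `χ = 1`: if the pole of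
`L₂(s, X)` at `s = 2` has an order different from `rank NS(X/K)`, then `L(T^{⊗ r}, s)` has a zero or a pole
at its edge, or no continuation, for infinitely many `r ≡ 1` modulo `q`, for every even `q`, and for some odd
`r ≤ s + 2`. -/
theorem result (K : Type) [Field K] [NumberField K] (l d m N : ℕ)
    (X : Set (MvPolynomial (Fin l) (𝓞 K))) (V : Type) [AddCommGroup V] [Module ℚ V]
    [FiniteDimensional ℚ V] (ρ : Representation ℚ Gal(AlgebraicClosure K/K) V) (hm : m ≤ d)
    (hV : IsPart X d m N ρ) :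
    (∀ (n : ℕ) (χ : Representation ℂ Gal(AlgebraicClosure K/K) (Fin n → ℂ)), IsArtin χ →
      Duality X d m N ρ χ ∧ Propagates X d m N ρ χ ∧ FinitelyManyPowers X d m N ρ χ) ∧
    MomentInequalities X d m N ρ := by
  refine ⟨fun n χ hχ => ⟨fun B S c B' hB hB' b hb0 hb η hη => ?_, fun δ hδ hδ0 q hq hq1 => ?_,
    fun δ hδ => ⟨fun q M hq hq1 hM h0 => ?_, fun R hR hlt h0 => ?_⟩⟩,
    fun R y δ hδ hy P hP hpos => ?_⟩
  · exact Pool.Agent.V69.TP.dual hm hV hχ hB S (fun r hr => (hB' r hr).1) c B'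
      (fun r hr => (hB' r hr).2) hb0 hb hη
  · exact Pool.Agent.V69.TP.prog_infinite hm hV hχ hq hq1 hδ0 hδ
  · exact Pool.Agent.V69.TP.prog_zero hm hV hχ hq hq1 M hM h0 hδ
  · exact Pool.Agent.V69.TP.odd_zero hm hV hχ hR hlt h0 hδ
  · exact Pool.Agent.V69.TP.moments hm hV R y hy hδ P hP hpos

end Pool.Agent.Results.MP_1f4fc7_nt.TranscendentalPowers
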